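import Mathlib
import Pool.Agent.Q217.TT.Sums
import Pool.Agent.TH507.ZS.HSb

/-!
# Blueprint: multiple zeta values with a common last part (MP_301213_nt, CommonSuffix)

For every finite set `U` of words with letters `≥ 2` and integers `c_u`, not all zero, the sign of `∑ c_u ζ(u p)` is the
same for all long words `p` (letters `≥ 1`). Proof: `ζ(u p) = ∑_n (nonnegative, zero for n < length p) * T u n` with the tails
`T u n`. The function `F n = ∑ c_u T u n` is eventually of constant sign (Rolle: divide by a coefficient, take differences)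
and not eventually zero (linear independence over the rational functions).
-/

set_option autoImplicit false

namespace Pool.Agent.Q217.CS

open Filter Topology
open Pool.Agent.H447R2.MZ (H Adm val)
open Pool.Agent.Q217.TT (ep)
open Pool.Agent.TH507.HS (W Hyp KN ev AA sig kq fa gr)

/-- the tails: `T [s_1, ..., s_r] M` is the sum of `∏ n_i ^ (- s_i)` over `n_1 > ... > n_r > M` -/
noncomputable def T (u : List ℕ) (M : ℕ) : ℝ := ⨆ X, ep u M X

/-- Hint: `TT.ep_mono` (for `X ≥ M`; for `X ≤ M` the values are `1` or `0`), bounded by `val u`: `ep u M X ≤ ep u 0 X = H u X`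
(`TT.ep_anti`; `ep u 0 X = H u X` by induction, both are the same recursion), `H_le_val`; use `tendsto_atTop_ciSup` for the
monotone function; `ep u M` is monotone in `X` for all `X` (for `u = []` constant; else it is zero for `X ≤ M`). -/
def TaskT1 : Prop := ∀ u : List ℕ, (∀ x ∈ u, 2 ≤ x) → ∀ M : ℕ,
  Tendsto (fun X => ep u M X) atTop (𝓝 (T u M)) ∧ (∀ X, ep u M X ≤ T u M) ∧ 0 ≤ T u M

/-- Hint: limit of `TT.ep_left` -/
def TaskT2 : Prop := TaskT1 → ∀ (u : List ℕ) (s : ℕ), (∀ x ∈ u, 2 ≤ x) → 2 ≤ s → ∀ M : ℕ,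
  T (u ++ [s]) (M + 1) - T (u ++ [s]) M = - (1 / ((1 + M : ℕ) : ℝ)) ^ s * T u (M + 1)

/-- Hint: with `S Y` the sum, `H (u ++ t :: p) Y ≤ S Y ≤ val (u ++ t :: p)`: `TT.H_app` and `ep u (n+1) Y ≤ T u (n+1)` for the
first; for the second the sum over `n < Y` of the terms with `ep u (n+1) X`, `X ≥ Y`, is at most
`H (u ++ t :: p) X ≤ val (u ++ t :: p)`, then `X → ∞`. Then squeeze with `tendsto_H`. -/
def TaskV : Prop := TaskT1 → ∀ (u : List ℕ), (∀ x ∈ u, 2 ≤ x) → ∀ (t : ℕ) (p : List ℕ), Adm (u ++ t :: p) →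
  Tendsto (fun Y => ∑ n ∈ Finset.range Y, H p n * (((n + 1 : ℕ) : ℝ) ^ t)⁻¹ * T u (n + 1)) atTop
    (𝓝 (val (u ++ t :: p)))

/-- Hint: induction on `p` -/
def TaskZero : Prop := ∀ p : List ℕ, (∀ n < p.length, H p n = 0) ∧ 0 < H p p.length

/-- Hint: induction on `t`; for `t + 1` use `W_succ`: `x = ∑ v ∈ V, d v * y v + ω`, and a second induction on the size of `V`
for all such `d`, `ω`. If `d v0 = 0` drop `v0`. Otherwise `d v0 * d' = 1` with `d' ∈ K` (`H.inv`), `x' = d' * x` has the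
coefficient `1` at `v0`, and `σ x' - x' = ∑ v ∈ V \ {v0}, (σ (d' * d v) - d' * d v) * y v + ω'` with `ω' ∈ W K y t`
(`H.step`, `H.W_stable`, `H.stable`), so `E (σ x' - x')` by induction, `E x'` by `h3`, `E x = E (d v0 * x')` by `h2`. -/
def TaskRolle : Prop := ∀ (R : Type) [CommRing R] (K : Subring R) (y : List ℕ → R) (σ : R →+* R) (f : ℕ → R)
  (k : ℚ →+* R), Hyp K y σ f k → ∀ E : R → Prop, (∀ x ∈ K, E x) → (∀ x z, E x → E z → E (x * z)) →
  (∀ x, E (σ x - x) → E x) → ∀ (t : ℕ), ∀ x ∈ W K y t, E x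

/-- a germ of eventually constant sign -/
def ES (x : Germ (atTop : Filter ℕ) ℝ) : Prop :=
  ∃ g : ℕ → ℝ, x = (g : Germ (atTop : Filter ℕ) ℝ) ∧
    ((∀ᶠ m in atTop, 0 < g m) ∨ (∀ᶠ m in atTop, g m = 0) ∨ (∀ᶠ m in atTop, g m < 0))

/-- Hint: if the difference is eventually `> 0` or `≥ 0`, the function is eventually monotone; either it is eventually
positive, or always `≤ 0` from some point on, and then eventually `< 0` or eventually `= 0` (once zero, always zero). -/
def TaskSign : Prop := ∀ g : ℕ → ℝ,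
  ((∀ᶠ m in atTop, 0 < g (m + 1) - g m) ∨ (∀ᶠ m in atTop, g (m + 1) - g m = 0) ∨
    (∀ᶠ m in atTop, g (m + 1) - g m < 0)) →
  ((∀ᶠ m in atTop, 0 < g m) ∨ (∀ᶠ m in atTop, g m = 0) ∨ (∀ᶠ m in atTop, g m < 0))

/-- Hint: a polynomial with integer coefficients is eventually positive, zero or negative -/
def TaskRat : Prop := ∀ P Q : Polynomial ℤ,
  (∀ᶠ m : ℕ in atTop, 0 < ((ev P (1 + 1 * m) / ev Q (1 + 1 * m) : ℚ) : ℝ)) ∨
  (∀ᶠ m : ℕ in atTop, ((ev P (1 + 1 * m) / ev Q (1 + 1 * m) : ℚ) : ℝ) = 0) ∨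
  (∀ᶠ m : ℕ in atTop, ((ev P (1 + 1 * m) / ev Q (1 + 1 * m) : ℚ) : ℝ) < 0)

end Pool.Agent.Q217.CS
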