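import Mathlib
import Pool.Agent.Q217.CS.Stmts

/-!
# The tails are linearly independent over the rational functions
-/

set_option autoImplicit false

namespace Pool.Agent.Q217.CS

open Filter Topology
open Pool.Agent.H447R2.MZ (H Adm val)
open Pool.Agent.Q217.TT (ep)
open Pool.Agent.TH507.HS (W Hyp KN ev AA sig kq fa gr qj W_mono mem_W mul_mem_W gr_surj hyp sig_gr kq_apply)

/-- germs of real sequences -/
abbrev RR := Germ (atTop : Filter ℕ) ℝ

/-- the germ of a sequence -/
def grr (f : ℕ → ℝ) : RR := (f : Germ (atTop : Filter ℕ) ℝ)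

lemma grr_eq {f g : ℕ → ℝ} : grr f = grr g ↔ ∀ᶠ m in atTop, f m = g m := Germ.coe_eq
lemma grr_add (f g : ℕ → ℝ) : grr f + grr g = grr (fun m => f m + g m) := rfl
lemma grr_sub (f g : ℕ → ℝ) : grr f - grr g = grr (fun m => f m - g m) := rfl
lemma grr_mul (f g : ℕ → ℝ) : grr f * grr g = grr (fun m => f m * g m) := rfl
lemma grr_neg (f : ℕ → ℝ) : - grr f = grr (fun m => - f m) := rfl
lemma grr_zero : grr (fun _ => 0) = 0 := rfl
lemma grr_one : grr (fun _ => 1) = 1 := rfl

lemma grr_surj (g : RR) : ∃ f, grr f = g := by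
  induction g using Germ.inductionOn with
  | _ f => exact ⟨f, rfl⟩

lemma grr_sum {ι : Type*} (A : Finset ι) (f : ι → ℕ → ℝ) :
    grr (fun m => ∑ i ∈ A, f i m) = ∑ i ∈ A, grr (f i) := by
  classical
  induction A using Finset.induction_on with
  | empty => simp [grr_zero]
  | insert x A hx ih =>
    rw [Finset.sum_insert hx, ← ih, grr_add]
    congr 1
    funext m
    rw [Finset.sum_insert hx]

/-- the shift -/
def sg : RR →+* RR where
  toFun g := g.compTendsto (fun m => m + 1) (tendsto_add_atTop_nat 1)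
  map_one' := rfl
  map_zero' := rfl
  map_mul' x y := by
    obtain ⟨f, rfl⟩ := grr_surj x
    obtain ⟨g, rfl⟩ := grr_surj y
    rfl
  map_add' x y := by
    obtain ⟨f, rfl⟩ := grr_surj x
    obtain ⟨g, rfl⟩ := grr_surj y
    rfl

lemma sg_grr (f : ℕ → ℝ) : sg (grr f) = grr (fun m => f (m + 1)) := rfl

/-- rational germs as real germs -/
def io : AA →+* RR where
  toFun g := g.map (fun q : ℚ => (q : ℝ))
  map_one' := by
    show grr (fun _ => ((1 : ℚ) : ℝ)) = 1
    rw [← grr_one]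
    congr 1
    funext m
    push_cast
    rfl
  map_zero' := by
    show grr (fun _ => ((0 : ℚ) : ℝ)) = 0
    rw [← grr_zero]
    congr 1
    funext m
    push_cast
    rfl
  map_mul' x y := by
    obtain ⟨f, rfl⟩ := gr_surj x
    obtain ⟨g, rfl⟩ := gr_surj y
    show grr (fun m => ((f m * g m : ℚ) : ℝ)) = grr (fun m => ((f m : ℚ) : ℝ)) * grr (fun m => ((g m : ℚ) : ℝ))
    rw [grr_mul]
    congr 1
    funext m
    push_cast
    rfl
  map_add' x y := by
    obtain ⟨f, rfl⟩ := gr_surj x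
    obtain ⟨g, rfl⟩ := gr_surj y
    show grr (fun m => ((f m + g m : ℚ) : ℝ)) = grr (fun m => ((f m : ℚ) : ℝ)) + grr (fun m => ((g m : ℚ) : ℝ))
    rw [grr_add]
    congr 1
    funext m
    push_cast
    rfl

lemma io_gr (f : ℕ → ℚ) : io (gr f) = grr (fun m => ((f m : ℚ) : ℝ)) := rfl

lemma io_inj : Function.Injective io := by
  intro x y h
  obtain ⟨f, rfl⟩ := gr_surj x
  obtain ⟨g, rfl⟩ := gr_surj y
  rw [io_gr, io_gr, grr_eq] at h
  rw [Pool.Agent.TH507.HS.gr_eq]
  filter_upwards [h] with m hm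
  exact_mod_cast hm

lemma sg_io (x : AA) : sg (io x) = io (sig x) := by
  obtain ⟨f, rfl⟩ := gr_surj x
  rfl

/-- the rational functions -/
def KR : Subring RR := (KN 1 le_rfl).map io

/-- the tails; the first letter of the list belongs to the smallest variable; letters are shifted by two -/
noncomputable def yR (w : List ℕ) : RR := grr fun m => T ((w.map (· + 2)).reverse) m

/-- the letters -/
def fR (a : ℕ) : RR := - io (fa 1 ⟨a + 2, Nat.succ_pos _⟩)

/-- constants -/
def kR : ℚ →+* RR := io.comp kq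

lemma fa_one (a : ℕ+) : fa 1 a = gr fun m => (1 / ((1 + m : ℕ) : ℚ)) ^ (a : ℕ) := by
  rw [fa, Finset.sum_range_one, qj, Pool.Agent.TH507.HS.gr_pow]
  congr 1
  funext m
  rw [one_mul, add_zero]

lemma fR_eq (a : ℕ) : fR a = grr fun m => - (1 / ((1 + m : ℕ) : ℝ)) ^ (a + 2) := by
  rw [fR, fa_one, io_gr, grr_neg]
  congr 1
  funext m
  push_cast
  rfl

lemma fR_mem (a : ℕ) : fR a ∈ KR :=
  KR.neg_mem ⟨_, (hyp 1 le_rfl).fK _, rfl⟩

lemma T_nil (M : ℕ) : T [] M = 1 := by
  rw [T]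
  simp only [Pool.Agent.Q217.TT.ep_nil]
  exact ciSup_const

section

variable (hT2 : ∀ (u : List ℕ) (s : ℕ), (∀ x ∈ u, 2 ≤ x) → 2 ≤ s → ∀ M : ℕ,
  T (u ++ [s]) (M + 1) - T (u ++ [s]) M = - (1 / ((1 + M : ℕ) : ℝ)) ^ s * T u (M + 1))

include hT2

lemma y_diff (a : ℕ) (w : List ℕ) : sg (yR (a :: w)) - yR (a :: w) = fR a * sg (yR w) := by
  rw [yR, yR, sg_grr, sg_grr, grr_sub, fR_eq, grr_mul]
  congr 1
  funext m
  rw [List.map_cons, List.reverse_cons]
  exact hT2 _ _ (by
    intro x hx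
    rw [List.mem_reverse, List.mem_map] at hx
    obtain ⟨b, _, rfl⟩ := hx
    omega) (by omega) m

lemma y_step : ∀ w : List ℕ, sg (yR w) - yR w ∈ W KR yR w.length := by
  intro w
  induction w with
  | nil =>
    have h : yR [] = 1 := by
      rw [yR, ← grr_one]
      congr 1
      funext m
      exact T_nil m
    rw [h, map_one, sub_self]
    exact (W _ _ _).zero_mem
  | cons a w ih =>
    rw [y_diff hT2]
    refine mul_mem_W (fR_mem a) ?_
    have h1 := W_mono (K := KR) (y := yR) (Nat.le_succ w.length) ih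
    have h2 : yR w ∈ W KR yR (w.length + 1) := mem_W (Nat.lt_succ_self _)
    have h3 := (W _ _ _).add_mem h1 h2
    rwa [sub_add_cancel] at h3

theorem hypR : Hyp KR yR sg fR kR where
  inv := by
    rintro _ ⟨x, hx, rfl⟩ hne
    obtain ⟨x', hx', h⟩ := (hyp 1 le_rfl).inv x hx (fun h => hne (by rw [h, map_zero]))
    exact ⟨io x', ⟨x', hx', rfl⟩, by
      show io x * io x' = 1
      rw [← map_mul, h, map_one]⟩
  nontriv := by
    rw [← grr_one, ← grr_zero, Ne, grr_eq]
    intro h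
    obtain ⟨m, hm⟩ := h.exists
    exact one_ne_zero hm
  stable := by
    rintro _ ⟨x, hx, rfl⟩
    exact ⟨sig x, (hyp 1 le_rfl).stable x hx, (sg_io x).symm⟩
  fK := fR_mem
  const := by
    rintro _ ⟨x, hx, rfl⟩ h
    obtain ⟨q, hq⟩ := (hyp 1 le_rfl).const x hx (io_inj (by rw [← sg_io]; exact h))
    exact ⟨q, by show io x = io (kq q); rw [hq]⟩
  nil := by
    rw [yR, ← grr_one]
    congr 1
    funext m
    exact T_nil m
  recu := by
    intro a w
    rw [y_diff hT2, ← mul_sub]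
    exact mul_mem_W (fR_mem a) (y_step hT2 w)
  tel := by
    rintro A c ⟨a0, ha0, hca0⟩ _ ⟨r, hr, rfl⟩ h
    have h1 : ∑ a ∈ A, kR (c a) * fR a =
        io (∑ a ∈ A, kq (- c a) * fa 1 ⟨a + 2, Nat.succ_pos _⟩) := by
      rw [map_sum]
      refine Finset.sum_congr rfl fun a _ => ?_
      rw [map_mul, map_neg, map_neg, fR]
      show io (kq (c a)) * _ = _
      ring
    have h0 : sg (io r) - io r = ∑ a ∈ A, kR (c a) * fR a := h
    rw [h1, sg_io, ← map_sub] at h0
    have h2 := io_inj h0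
    have hinj : Function.Injective fun a : ℕ => (⟨a + 2, Nat.succ_pos _⟩ : ℕ+) := by
      intro a b hab
      have := congrArg PNat.val hab
      simp only [PNat.mk_coe] at this
      omega
    have h3 : ∑ a ∈ A, kq (- c a) * fa 1 ⟨a + 2, Nat.succ_pos _⟩ =
        ∑ b ∈ A.map ⟨_, hinj⟩, kq (- c ((b : ℕ) - 2)) * fa 1 b := by
      rw [Finset.sum_map]
      refine Finset.sum_congr rfl fun a _ => ?_
      simp
    rw [h3] at h2
    refine (hyp 1 le_rfl).tel (A.map ⟨_, hinj⟩) (fun b => - c ((b : ℕ) - 2))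
      ⟨⟨a0 + 2, Nat.succ_pos _⟩, ?_, ?_⟩ r hr h2
    · rw [Finset.mem_map]
      exact ⟨a0, ha0, rfl⟩
    · simpa using hca0

end

end Pool.Agent.Q217.CS
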