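import Mathlib
import Pool.Agent.Q217.CS.Hyp

/-!
# Words with a common last part: assembly
-/

set_option autoImplicit false

namespace Pool.Agent.Q217.CS

open Filter Topology
open Pool.Agent.H447R2.MZ (H Adm val H_nonneg)
open Pool.Agent.Q217.TT (ep)
open Pool.Agent.TH507.HS (W Hyp KN ev AA sig kq fa gr mem_W mul_mem_W)

/-- eventually of constant sign -/
def SG (g : ℕ → ℝ) : Prop := (∀ᶠ m in atTop, 0 < g m) ∨ (∀ᶠ m in atTop, g m = 0) ∨ (∀ᶠ m in atTop, g m < 0)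

lemma SG_congr {f g : ℕ → ℝ} (h : ∀ᶠ m in atTop, f m = g m) (hf : SG f) : SG g := by
  rcases hf with h1 | h1 | h1
  · exact Or.inl (by filter_upwards [h, h1] with m h h1; rwa [← h])
  · exact Or.inr (Or.inl (by filter_upwards [h, h1] with m h h1; rwa [← h]))
  · exact Or.inr (Or.inr (by filter_upwards [h, h1] with m h h1; rwa [← h]))

lemma ES_iff {g : ℕ → ℝ} : ES (grr g) ↔ SG g := by
  constructor
  · rintro ⟨f, hf, h⟩
    exact SG_congr (by
      have h1 : grr g = grr f := hf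
      rw [grr_eq] at h1
      filter_upwards [h1] with m hm using hm.symm) h
  · intro h
    exact ⟨g, rfl, h⟩

lemma SG_mul {f g : ℕ → ℝ} (hf : SG f) (hg : SG g) : SG fun m => f m * g m := by
  rcases hf with h1 | h1 | h1 <;> rcases hg with h2 | h2 | h2
  · exact Or.inl (by filter_upwards [h1, h2] with m h1 h2 using mul_pos h1 h2)
  · exact Or.inr (Or.inl (by filter_upwards [h2] with m h2; rw [h2, mul_zero]))
  · exact Or.inr (Or.inr (by filter_upwards [h1, h2] with m h1 h2 using mul_neg_of_pos_of_neg h1 h2))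
  · exact Or.inr (Or.inl (by filter_upwards [h1] with m h1; rw [h1, zero_mul]))
  · exact Or.inr (Or.inl (by filter_upwards [h1] with m h1; rw [h1, zero_mul]))
  · exact Or.inr (Or.inl (by filter_upwards [h1] with m h1; rw [h1, zero_mul]))
  · exact Or.inr (Or.inr (by filter_upwards [h1, h2] with m h1 h2 using mul_neg_of_neg_of_pos h1 h2))
  · exact Or.inr (Or.inl (by filter_upwards [h2] with m h2; rw [h2, mul_zero]))
  · exact Or.inl (by filter_upwards [h1, h2] with m h1 h2 using mul_pos_of_neg_of_neg h1 h2)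

/-- the word for `yR` -/
def ph (u : List ℕ) : List ℕ := (u.map (· - 2)).reverse

/-- back -/
def ps (w : List ℕ) : List ℕ := (w.map (· + 2)).reverse

lemma ps_ph {u : List ℕ} (hu : ∀ x ∈ u, 2 ≤ x) : ps (ph u) = u := by
  rw [ps, ph, List.map_reverse, List.reverse_reverse, List.map_map]
  conv_rhs => rw [← List.map_id u]
  refine List.map_congr_left fun x hx => ?_
  have := hu x hx
  simp only [Function.comp_apply, id]
  omega

lemma yR_ph {u : List ℕ} (hu : ∀ x ∈ u, 2 ≤ x) : yR (ph u) = grr fun m => T u m := by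
  rw [yR]
  have h := ps_ph hu
  rw [ps] at h
  rw [h]

lemma kR_apply (q : ℚ) : kR q = grr fun _ => (q : ℝ) := rfl

theorem main_cs (t1 : TaskT1) (t2 : TaskT2) (v : TaskV) (z : TaskZero) (ro : TaskRolle) (si : TaskSign)
    (ra : TaskRat) (U : Finset (List ℕ)) (hU : ∀ u ∈ U, ∀ x ∈ u, 2 ≤ x) (c : List ℕ → ℤ)
    (hc : ∃ u ∈ U, c u ≠ 0) : ∃ L : ℕ, ∃ ε : ℝ, (ε = 1 ∨ ε = -1) ∧ ∀ p : List ℕ, L ≤ p.length →
      (∀ u ∈ U, Adm (u ++ p)) → 0 < ε * ∑ u ∈ U, (c u : ℝ) * val (u ++ p) := by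
  classical
  have hT2 := t2 t1
  have hyp := hypR hT2
  let F : ℕ → ℝ := fun m => ∑ u ∈ U, (c u : ℝ) * T u m
  have hlen : ∃ t, ∀ u ∈ U, (ph u).length < t := by
    refine ⟨∑ u ∈ U, (ph u).length + 1, fun w hw => ?_⟩
    have := Finset.single_le_sum (f := fun u : List ℕ => (ph u).length) (fun _ _ => Nat.zero_le _) hw
    omega
  obtain ⟨t, ht⟩ := hlen
  have hFgr : grr F = ∑ u ∈ U, kR (c u) * yR (ph u) := by
    rw [show grr F = grr (fun m => ∑ u ∈ U, (c u : ℝ) * T u m) from rfl, grr_sum]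
    refine Finset.sum_congr rfl fun u hu => ?_
    rw [yR_ph (hU u hu), kR_apply, grr_mul]
    congr 1
  have hkR : ∀ q, kR q ∈ KR := by
    intro q
    refine ⟨kq q, ?_, rfl⟩
    refine ⟨Polynomial.C q.num, Polynomial.C (q.den : ℤ), ?_, ?_⟩
    · rw [Ne, Polynomial.C_eq_zero]
      exact_mod_cast q.den_nz
    · rw [Pool.Agent.TH507.HS.kq_apply]
      congr 1
      funext m
      simp [Pool.Agent.TH507.HS.ev, Rat.num_div_den]
  -- the sign of `F`
  have hES : ES (grr F) := by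
    refine ro RR KR yR sg fR kR hyp ES ?_ ?_ ?_ t _ ?_
    · rintro _ ⟨_, ⟨P, Q, _, rfl⟩, rfl⟩
      exact ES_iff.2 (ra P Q)
    · intro x y hx hy
      obtain ⟨f, rfl⟩ := grr_surj x
      obtain ⟨g, rfl⟩ := grr_surj y
      rw [grr_mul, ES_iff]
      exact SG_mul (ES_iff.1 hx) (ES_iff.1 hy)
    · intro x hx
      obtain ⟨f, rfl⟩ := grr_surj x
      rw [sg_grr, grr_sub, ES_iff] at hx
      rw [ES_iff]
      exact si f hx
    · rw [hFgr]
      exact (W _ _ _).sum_mem fun u hu => mul_mem_W (hkR _) (mem_W (ht u hu))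
  have hSG : SG F := ES_iff.1 hES
  have hnz : ¬ ∀ᶠ m in atTop, F m = 0 := by
    intro h
    have h0 : ∑ u ∈ U, kR (c u) * yR (ph u) = 0 := by
      rw [← hFgr, ← grr_zero, grr_eq]
      exact h
    have hinj : Set.InjOn ph (U : Set (List ℕ)) := by
      intro a ha b hb hab
      rw [← ps_ph (hU a ha), ← ps_ph (hU b hb), hab]
    have h1 : ∑ w ∈ U.image ph, kR (c (ps w)) * yR w = 0 := by
      rw [Finset.sum_image hinj, ← h0]
      refine Finset.sum_congr rfl fun u hu => ?_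
      rw [ps_ph (hU u hu)]
    have h2 := hyp.indep t (U.image ph) (fun w => kR (c (ps w))) (by
      intro w hw
      obtain ⟨u, hu, rfl⟩ := Finset.mem_image.1 hw
      exact ht u hu) (fun w => hkR _) h1
    obtain ⟨u, hu, hcu⟩ := hc
    have h3 := h2 (ph u) (Finset.mem_image_of_mem _ hu)
    rw [ps_ph (hU u hu), kR_apply, ← grr_zero, grr_eq] at h3
    obtain ⟨m, hm⟩ := h3.exists
    apply hcu
    have h4 : (c u : ℝ) = 0 := by exact_mod_cast hm
    exact_mod_cast h4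
  have hsgn : ∃ ε : ℝ, (ε = 1 ∨ ε = -1) ∧ ∀ᶠ m in atTop, 0 < ε * F m := by
    rcases hSG with h | h | h
    · exact ⟨1, Or.inl rfl, by filter_upwards [h] with m hm; rwa [one_mul]⟩
    · exact absurd h hnz
    · exact ⟨-1, Or.inr rfl, by filter_upwards [h] with m hm; linarith⟩
  obtain ⟨ε, hε, hev⟩ := hsgn
  obtain ⟨m0, hm0⟩ := eventually_atTop.1 hev
  refine ⟨m0 + 1, ε, hε, fun p hp hadm => ?_⟩
  obtain ⟨x, p', rfl⟩ : ∃ x p', p = x :: p' := by
    cases p with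
    | nil => simp at hp
    | cons x p' => exact ⟨x, p', rfl⟩
  rw [List.length_cons] at hp
  have hlim : Tendsto (fun Y => ε * ∑ n ∈ Finset.range Y, H p' n * (((n + 1 : ℕ) : ℝ) ^ x)⁻¹ * F (n + 1)) atTop
      (𝓝 (ε * ∑ u ∈ U, (c u : ℝ) * val (u ++ x :: p'))) := by
    refine Tendsto.const_mul _ ?_
    have h1 : (fun Y => ∑ n ∈ Finset.range Y, H p' n * (((n + 1 : ℕ) : ℝ) ^ x)⁻¹ * F (n + 1)) =
        fun Y => ∑ u ∈ U, (c u : ℝ) * ∑ n ∈ Finset.range Y, H p' n * (((n + 1 : ℕ) : ℝ) ^ x)⁻¹ * T u (n + 1) := by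
      funext Y
      rw [Finset.sum_congr rfl fun (u : List ℕ) _ => Finset.mul_sum _ _ _, Finset.sum_comm]
      refine Finset.sum_congr rfl fun n _ => ?_
      rw [show F (n + 1) = ∑ u ∈ U, (c u : ℝ) * T u (n + 1) from rfl, Finset.mul_sum]
      exact Finset.sum_congr rfl fun u _ => by ring
    rw [h1]
    exact tendsto_finsetSum _ fun u hu => (v t1 u (hU u hu) x p' (hadm u hu)).const_mul _
  obtain ⟨hz1, hz2⟩ := z p'
  set n1 := p'.length with hn1
  have hterm : ∀ n, 0 ≤ ε * (H p' n * (((n + 1 : ℕ) : ℝ) ^ x)⁻¹ * F (n + 1)) := by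
    intro n
    rcases Nat.lt_or_ge n n1 with h | h
    · rw [hz1 n h]; simp
    · have h1 := hm0 (n + 1) (by omega)
      have h2 : ε * (H p' n * (((n + 1 : ℕ) : ℝ) ^ x)⁻¹ * F (n + 1)) =
          H p' n * (((n + 1 : ℕ) : ℝ) ^ x)⁻¹ * (ε * F (n + 1)) := by ring
      rw [h2]
      exact mul_nonneg (mul_nonneg (H_nonneg _ _) (by positivity)) h1.le
  have hpos : 0 < ε * (H p' n1 * (((n1 + 1 : ℕ) : ℝ) ^ x)⁻¹ * F (n1 + 1)) := by
    have h1 := hm0 (n1 + 1) (by omega)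
    have h2 : ε * (H p' n1 * (((n1 + 1 : ℕ) : ℝ) ^ x)⁻¹ * F (n1 + 1)) =
        H p' n1 * (((n1 + 1 : ℕ) : ℝ) ^ x)⁻¹ * (ε * F (n1 + 1)) := by ring
    rw [h2]
    exact mul_pos (mul_pos hz2 (by positivity)) h1
  refine lt_of_lt_of_le hpos (ge_of_tendsto hlim ?_)
  filter_upwards [eventually_ge_atTop (n1 + 1)] with Y hY
  have h5 := Finset.single_le_sum (f := fun n => ε * (H p' n * (((n + 1 : ℕ) : ℝ) ^ x)⁻¹ * F (n + 1)))
    (fun n _ => hterm n) (Finset.mem_range.2 (show n1 < Y by omega))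
  rw [← Finset.mul_sum] at h5
  exact h5

end Pool.Agent.Q217.CS
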