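import Pool.Agent.Q217.CS.Stmts

/-! MP_301213_nt, task Rat (helper204): the sign of a rational function at large integers. -/

set_option autoImplicit false

namespace Pool.Agent.Q217.CS

open Filter Topology Polynomial
open Pool.Agent.TH507.HS (ev)

private theorem poly_sign (P : ℤ[X]) :
    (∀ᶠ m : ℕ in atTop, 0 < P.eval ((1 + 1 * m : ℕ) : ℤ)) ∨
    (∀ᶠ m : ℕ in atTop, P.eval ((1 + 1 * m : ℕ) : ℤ) = 0) ∨
    (∀ᶠ m : ℕ in atTop, P.eval ((1 + 1 * m : ℕ) : ℤ) < 0) := by
  have hev : ∀ x : ℤ, (P.map (Int.castRingHom ℝ)).eval (x : ℝ) = ((P.eval x : ℤ) : ℝ) := by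
    intro x
    have h := Polynomial.eval_map_apply (f := Int.castRingHom ℝ) (p := P) x
    simpa using h
  have hlim : Tendsto (fun m : ℕ => (((1 + 1 * m : ℕ) : ℤ) : ℝ)) atTop atTop := by
    refine tendsto_atTop_mono (fun m => ?_) tendsto_natCast_atTop_atTop
    push_cast
    linarith
  rcases le_or_gt (P.map (Int.castRingHom ℝ)).degree 0 with hd | hd
  · have hc : ∀ x : ℝ, (P.map (Int.castRingHom ℝ)).eval x = (P.map (Int.castRingHom ℝ)).coeff 0 := by
      intro x
      rw [Polynomial.eq_C_of_degree_le_zero hd]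
      simp
    rcases lt_trichotomy 0 ((P.map (Int.castRingHom ℝ)).coeff 0) with h | h | h
    · left
      refine Eventually.of_forall fun m => ?_
      have h1 := hev ((1 + 1 * m : ℕ) : ℤ)
      rw [hc] at h1
      exact_mod_cast h1 ▸ h
    · right; left
      refine Eventually.of_forall fun m => ?_
      have h1 := hev ((1 + 1 * m : ℕ) : ℤ)
      rw [hc, ← h] at h1
      exact_mod_cast h1.symm
    · right; right
      refine Eventually.of_forall fun m => ?_
      have h1 := hev ((1 + 1 * m : ℕ) : ℤ)
      rw [hc] at h1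
      exact_mod_cast h1 ▸ h
  · rcases le_total 0 (P.map (Int.castRingHom ℝ)).leadingCoeff with h | h
    · left
      have ht := (Polynomial.tendsto_atTop_of_leadingCoeff_nonneg _ hd h).comp hlim
      filter_upwards [ht.eventually_gt_atTop 0] with m hm
      simp only [Function.comp] at hm
      rw [hev] at hm
      exact_mod_cast hm
    · right; right
      have ht := (Polynomial.tendsto_atBot_of_leadingCoeff_nonpos _ hd h).comp hlim
      filter_upwards [ht.eventually_lt_atBot 0] with m hm
      simp only [Function.comp] at hm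
      rw [hev] at hm
      exact_mod_cast hm

theorem rat : TaskRat := by
  intro P Q
  have key : ∀ m : ℕ, ((ev P (1 + 1 * m) / ev Q (1 + 1 * m) : ℚ) : ℝ) =
      ((P.eval ((1 + 1 * m : ℕ) : ℤ) : ℤ) : ℝ) / ((Q.eval ((1 + 1 * m : ℕ) : ℤ) : ℤ) : ℝ) := by
    intro m
    unfold ev
    push_cast
    rfl
  simp only [key]
  have c : ∀ z : ℤ, 0 < z → (0 : ℝ) < z := fun z hz => by exact_mod_cast hz
  have c' : ∀ z : ℤ, z < 0 → (z : ℝ) < 0 := fun z hz => by exact_mod_cast hz
  rcases poly_sign P with hP | hP | hP <;> rcases poly_sign Q with hQ | hQ | hQ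
  · left
    filter_upwards [hP, hQ] with m h1 h2
    exact div_pos (c _ h1) (c _ h2)
  · right; left
    filter_upwards [hP, hQ] with m h1 h2
    rw [h2]; simp
  · right; right
    filter_upwards [hP, hQ] with m h1 h2
    exact div_neg_of_pos_of_neg (c _ h1) (c' _ h2)
  · right; left
    filter_upwards [hP, hQ] with m h1 h2
    rw [h1]; simp
  · right; left
    filter_upwards [hP, hQ] with m h1 h2
    rw [h1]; simp
  · right; left
    filter_upwards [hP, hQ] with m h1 h2
    rw [h1]; simp
  · right; right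
    filter_upwards [hP, hQ] with m h1 h2
    exact div_neg_of_neg_of_pos (c' _ h1) (c _ h2)
  · right; left
    filter_upwards [hP, hQ] with m h1 h2
    rw [h2]; simp
  · left
    filter_upwards [hP, hQ] with m h1 h2
    exact div_pos_of_neg_of_neg (c' _ h1) (c' _ h2)

end Pool.Agent.Q217.CS
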