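import Pool.Agent.Q217.CS.Stmts

set_option autoImplicit false

namespace Pool.Agent.Q217.CS

open Pool.Agent.TH507.HS (W Hyp W_succ mem_W mul_mem_W)

theorem rolle : TaskRolle := by
  classical
  intro R _ K y σ f k H E h1 h2 h3 t
  induction t with
  | zero =>
    intro x hx
    have h4 : W K y 0 = ⊥ := by
      unfold W
      rw [Submodule.span_eq_bot]
      rintro x ⟨w, hw, -⟩
      exact absurd hw (Nat.not_lt_zero _)
    rw [h4, Submodule.mem_bot] at hx
    rw [hx]
    exact h1 0 K.zero_mem
  | succ t ih =>
    have key : ∀ (n : ℕ) (V : Finset (List ℕ)) (d : List ℕ → R) (ω : R), V.card = n →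
        (∀ v ∈ V, v.length = t) → (∀ v, d v ∈ K) → ω ∈ W K y t → E (∑ v ∈ V, d v * y v + ω) := by
      intro n
      induction n with
      | zero =>
        intro V d ω hn _ _ hω
        rw [Finset.card_eq_zero.mp hn, Finset.sum_empty, zero_add]
        exact ih ω hω
      | succ n ihn =>
        intro V d ω hn hV hd hω
        obtain ⟨v0, hv0⟩ : V.Nonempty := Finset.card_pos.mp (by omega)
        have hcard : (V.erase v0).card = n := by rw [Finset.card_erase_of_mem hv0]; omega
        have hV' : ∀ v ∈ V.erase v0, v.length = t := fun v hv => hV v (Finset.mem_of_mem_erase hv)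
        by_cases h0 : d v0 = 0
        · have := ihn (V.erase v0) d ω hcard hV' hd hω
          rwa [← Finset.add_sum_erase V _ hv0, h0, zero_mul, zero_add]
        · obtain ⟨d', hd', hdd⟩ := H.inv (d v0) (hd v0) h0
          set x : R := ∑ v ∈ V, d v * y v + ω with hx
          have hx' : x = d v0 * (d' * x) := by rw [← mul_assoc, hdd, one_mul]
          have heK : ∀ v, d' * d v ∈ K := fun v => K.mul_mem hd' (hd v)
          rw [hx']
          refine h2 _ _ (h1 _ (hd v0)) (h3 _ ?_)
          -- the difference
          set ω' : R := ∑ v ∈ V, σ (d' * d v) * (σ (y v) - y v) + (σ (d' * ω) - d' * ω) with hω'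
          have hω'' : ω' ∈ W K y t := by
            refine (W K y t).add_mem ((W K y t).sum_mem fun v hv => ?_) ?_
            · have h5 := H.step v
              rw [hV v hv] at h5
              exact mul_mem_W (H.stable _ (heK v)) h5
            · have h5 : d' * ω ∈ W K y t := mul_mem_W hd' hω
              exact (W K y t).sub_mem (H.W_stable _ h5) h5
          have he0 : σ (d' * d v0) - d' * d v0 = 0 := by
            rw [mul_comm d' (d v0), hdd, map_one, sub_self]
          have h6 : σ (d' * x) - d' * x =
              ∑ v ∈ V.erase v0, (σ (d' * d v) - d' * d v) * y v + ω' := by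
            have h7 : ∑ v ∈ V.erase v0, (σ (d' * d v) - d' * d v) * y v =
                ∑ v ∈ V, (σ (d' * d v) - d' * d v) * y v := by
              rw [← Finset.add_sum_erase V _ hv0, he0, zero_mul, zero_add]
            rw [h7, hω', hx, mul_add, map_add, Finset.mul_sum, map_sum]
            have h8 : ∑ v ∈ V, σ (d' * (d v * y v)) - ∑ v ∈ V, d' * (d v * y v) =
                ∑ v ∈ V, (σ (d' * d v) - d' * d v) * y v +
                ∑ v ∈ V, σ (d' * d v) * (σ (y v) - y v) := by
              rw [← Finset.sum_sub_distrib, ← Finset.sum_add_distrib]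
              refine Finset.sum_congr rfl fun v _ => ?_
              rw [← mul_assoc, map_mul]
              ring
            linear_combination h8
          rw [h6]
          exact ihn (V.erase v0) _ ω' hcard hV' (fun v => K.sub_mem (H.stable _ (heK v)) (heK v)) hω''
    intro x hx
    obtain ⟨V, d, ω, hV, hd, hω, rfl⟩ := W_succ hx
    exact key V.card V d ω rfl hV hd hω

end Pool.Agent.Q217.CS
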