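import Pool.Agent.Q217.CS.Stmts

set_option autoImplicit false

namespace Pool.Agent.Q217.CS

open Filter Topology
open Pool.Agent.H447R2.MZ (H Adm val H_nil H_cons H_le_val H_nonneg)
open Pool.Agent.Q217.TT (ep ep_nil ep_nonneg ep_mono ep_anti)

lemma ep_zero_eq (u : List ℕ) (X : ℕ) : ep u 0 X = H u X := by
  induction u generalizing X with
  | nil => rw [ep_nil, H_nil]
  | cons s p ih =>
    rw [ep, H_cons, ← Finset.range_eq_Ico]
    refine Finset.sum_congr rfl fun n _ => ?_
    rw [ih]

lemma ep_small (s : ℕ) (p : List ℕ) {M X : ℕ} (h : X ≤ M) : ep (s :: p) M X = 0 := by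
  rw [ep, Finset.Ico_eq_empty_of_le h, Finset.sum_empty]

lemma ep_monotone (u : List ℕ) (M : ℕ) : Monotone (fun X => ep u M X) := by
  intro X Y h
  cases u with
  | nil => simp only [ep_nil, le_refl]
  | cons s p =>
    rcases le_total M X with h1 | h1
    · exact ep_mono h1 h
    · simp only [ep_small s p h1]
      exact ep_nonneg _ _ _

lemma adm_of_two {u : List ℕ} (hu : ∀ x ∈ u, 2 ≤ x) : Adm u :=
  ⟨fun a ha => le_trans (by norm_num) (hu a ha), fun a t h => hu a (by rw [h]; exact List.mem_cons_self)⟩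

lemma ep_le_val {u : List ℕ} (hu : ∀ x ∈ u, 2 ≤ x) (M X : ℕ) : ep u M X ≤ val u := by
  have h0 : ep u 0 X ≤ val u := by
    rw [ep_zero_eq]; exact H_le_val u (adm_of_two hu) X
  refine le_trans ?_ h0
  rcases le_total M X with h1 | h1
  · exact ep_anti u (Nat.zero_le M) h1
  · cases u with
    | nil => simp only [ep_nil, le_refl]
    | cons s p =>
      rw [ep_small s p h1]
      exact ep_nonneg _ _ _

theorem t1 : TaskT1 := by
  intro u hu M
  have hb : BddAbove (Set.range fun X => ep u M X) :=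
    ⟨val u, by rintro _ ⟨X, rfl⟩; exact ep_le_val hu M X⟩
  have h2 : ∀ X, ep u M X ≤ T u M := fun X => le_ciSup hb X
  exact ⟨tendsto_atTop_ciSup (ep_monotone u M) hb, h2, le_trans (ep_nonneg u M 0) (h2 0)⟩

end Pool.Agent.Q217.CS
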