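import Pool.Agent.Q217.CS.Stmts

/-! The difference of the tails (blueprint lemma for `MP_301213_nt`). -/

set_option autoImplicit false

namespace Pool.Agent.Q217.CS

open Filter Topology
open Pool.Agent.Q217.TT (ep ep_left)

theorem t2 : TaskT2 := by
  intro h1 u s hu hs M
  have hus : ∀ x ∈ u ++ [s], 2 ≤ x := by
    intro x hx
    rcases List.mem_append.mp hx with h | h
    · exact hu x h
    · rw [List.mem_singleton] at h; rw [h]; exact hs
  have a1 := (h1 (u ++ [s]) hus M).1
  have a2 := (h1 (u ++ [s]) hus (M + 1)).1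
  have a3 := (h1 u hu (M + 1)).1
  have a4 : Tendsto (fun X => ep (u ++ [s]) M X) atTop
      (𝓝 (T (u ++ [s]) (M + 1) + (((M + 1 : ℕ) : ℝ) ^ s)⁻¹ * T u (M + 1))) := by
    refine (a2.add (a3.const_mul _)).congr' ?_
    filter_upwards [eventually_ge_atTop (M + 1)] with X hX
    exact (ep_left u s hX).symm
  have a5 := tendsto_nhds_unique a1 a4
  rw [a5, Nat.add_comm 1 M, one_div, inv_pow]
  ring

end Pool.Agent.Q217.CS
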