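import Pool.Agent.Q217.CS.Stmts

set_option autoImplicit false

namespace Pool.Agent.Q217.CS

open Filter Topology

private theorem inc {g : ℕ → ℝ} {N : ℕ} (h : ∀ m, N ≤ m → g m < g (m + 1)) :
    (∀ᶠ m in atTop, 0 < g m) ∨ (∀ᶠ m in atTop, g m < 0) := by
  by_cases hex : ∃ m, N ≤ m ∧ 0 ≤ g m
  · left
    obtain ⟨m, hm, h0⟩ := hex
    have key : ∀ j, 0 < g (m + 1 + j) := by
      intro j
      induction j with
      | zero => exact lt_of_le_of_lt h0 (h m hm)
      | succ j ih => exact ih.trans (h (m + 1 + j) (by omega))
    filter_upwards [eventually_ge_atTop (m + 1)] with i hi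
    obtain ⟨j, rfl⟩ := Nat.exists_eq_add_of_le hi
    exact key j
  · right
    push Not at hex
    filter_upwards [eventually_ge_atTop N] with i hi
    exact hex i hi

theorem taskSign : TaskSign := by
  intro g h
  rcases h with h | h | h
  · obtain ⟨N, hN⟩ := eventually_atTop.1 h
    rcases inc (g := g) (N := N) (fun m hm => sub_pos.1 (hN m hm)) with h1 | h1
    · exact Or.inl h1
    · exact Or.inr (Or.inr h1)
  · obtain ⟨N, hN⟩ := eventually_atTop.1 h
    have key : ∀ j, g (N + j) = g N := by
      intro j
      induction j with
      | zero => rfl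
      | succ j ih => exact (sub_eq_zero.1 (hN (N + j) (by omega))).trans ih
    have key' : ∀ m, N ≤ m → g m = g N := by
      intro m hm
      obtain ⟨j, rfl⟩ := Nat.exists_eq_add_of_le hm
      exact key j
    rcases lt_trichotomy (g N) 0 with h1 | h1 | h1
    · refine Or.inr (Or.inr ?_)
      filter_upwards [eventually_ge_atTop N] with m hm
      rw [key' m hm]
      exact h1
    · refine Or.inr (Or.inl ?_)
      filter_upwards [eventually_ge_atTop N] with m hm
      rw [key' m hm]
      exact h1
    · refine Or.inl ?_
      filter_upwards [eventually_ge_atTop N] with m hm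
      rw [key' m hm]
      exact h1
  · obtain ⟨N, hN⟩ := eventually_atTop.1 h
    rcases inc (g := fun m => - g m) (N := N) (fun m hm => by
      have := hN m hm
      change - g m < - g (m + 1)
      linarith) with h1 | h1
    · refine Or.inr (Or.inr (h1.mono fun m hm => ?_))
      linarith
    · refine Or.inl (h1.mono fun m hm => ?_)
      linarith

end Pool.Agent.Q217.CS
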