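import Pool.Agent.Q217.CS.Stmts

set_option autoImplicit false

namespace Pool.Agent.Q217.CS

open Filter Topology
open Pool.Agent.H447R2.MZ (H Adm val H_nil H_cons H_le_val H_nonneg tendsto_H)
open Pool.Agent.Q217.TT (ep ep_nil ep_nonneg ep_mono ep_anti H_app)

theorem v : TaskV := by
  intro hT u hu t p hA
  have hterm : ∀ n : ℕ, 0 ≤ H p n * (((n + 1 : ℕ) : ℝ) ^ t)⁻¹ := fun n =>
    mul_nonneg (H_nonneg p n) (by positivity)
  refine tendsto_of_tendsto_of_tendsto_of_le_of_le (tendsto_H (u ++ t :: p) hA) tendsto_const_nhds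
    (fun Y => ?_) (fun Y => ?_)
  · show H (u ++ t :: p) Y ≤ _
    rw [H_app]
    exact Finset.sum_le_sum fun n _ => mul_le_mul_of_nonneg_left ((hT u hu (n + 1)).2.1 Y) (hterm n)
  · show _ ≤ val (u ++ t :: p)
    have hlim : Tendsto (fun X => ∑ n ∈ Finset.range Y, H p n * (((n + 1 : ℕ) : ℝ) ^ t)⁻¹ *
        ep u (n + 1) X) atTop
        (𝓝 (∑ n ∈ Finset.range Y, H p n * (((n + 1 : ℕ) : ℝ) ^ t)⁻¹ * T u (n + 1))) :=
      tendsto_finset_sum _ fun n _ => (hT u hu (n + 1)).1.const_mul _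
    refine le_of_tendsto hlim ?_
    filter_upwards [eventually_ge_atTop Y] with X hX
    refine le_trans ?_ (H_le_val (u ++ t :: p) hA X)
    rw [H_app]
    exact Finset.sum_le_sum_of_subset_of_nonneg (Finset.range_mono hX) fun n _ _ =>
      mul_nonneg (hterm n) (ep_nonneg _ _ _)

end Pool.Agent.Q217.CS
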