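import Pool.Agent.Q217.CS.Stmts

set_option autoImplicit false

namespace Pool.Agent.Q217.CS

open Pool.Agent.H447R2.MZ (H Adm val)

theorem zero : TaskZero := by
  intro p
  induction p with
  | nil => 
    constructor
    · intro n hn
      simp at hn
    · simp [H]
  | cons s p ih =>
    obtain ⟨h0, hp⟩ := ih
    constructor
    · intro n hn
      simp only [H]
      refine Finset.sum_eq_zero fun m hm => ?_
      rw [Finset.mem_range] at hm
      simp only [List.length_cons] at hn
      rw [h0 m (by omega)]
      simp
    · simp only [H, List.length_cons]
      rw [Finset.sum_range_succ]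
      have : ∀ m ∈ Finset.range p.length, (((m + 1 : ℕ) : ℝ) ^ s)⁻¹ * H p m = 0 := by
        intro m hm
        rw [Finset.mem_range] at hm
        rw [h0 m hm, mul_zero]
      rw [Finset.sum_eq_zero this, zero_add]
      positivity

end Pool.Agent.Q217.CS
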